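import Mathlib

set_option autoImplicit false
open Classical

namespace Pool.Agent.Results.MP_bdaba8_co.Reduction

/-- Euclidean space of dimension `d`. -/
abbrev E (d : ℕ) : Type := EuclideanSpace ℝ (Fin d)

/-- The distinct distances determined by the finite set `S`. -/
noncomputable def distances {d : ℕ} (S : Finset (E d)) : Finset ℝ :=
  S.offDiag.image fun p => dist p.1 p.2

/-- The graph `G(S,k)`: distinct points `x, y` of `S` are adjacent exactly when fewer than `k` of
the distances determined by `S` exceed `|x - y|`, that is, when `|x - y| ≥ d_k`. -/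
def G {d : ℕ} (S : Finset (E d)) (k : ℕ) : SimpleGraph S where
  Adj x y := x ≠ y ∧ ((distances S).filter fun r => dist (x : E d) y < r).card < k
  symm := ⟨fun _ _ h => ⟨h.1.symm, by rw [dist_comm]; exact h.2⟩⟩
  loopless := ⟨fun _ h => h.1 rfl⟩

/-- `f(d,k)`: the limit (infimum) over `n` of the supremum of `χ(G(S,k))` over the finite sets
`S` in `R^d` with at least `n` points and at least `k` distinct distances. -/
noncomputable def f (d k : ℕ) : ℕ∞ :=
  ⨅ n : ℕ, ⨆ S : {S : Finset (E d) // n ≤ S.card ∧ k ≤ (distances S).card},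
    (G S.1 k).chromaticNumber

/-- `h(d,k)`: the supremum of `χ(G(S,k))` over all finite sets `S` in `R^d`, small ones included
(if `S` has at most `k` distinct distances then `G(S,k)` is complete). -/
noncomputable def h (d k : ℕ) : ℕ∞ := ⨆ S : Finset (E d), (G S k).chromaticNumber

/-- `g(d,k)`: the largest number of points of a finite set in `R^d` with at most `k` distinct
distances. -/
noncomputable def g (d k : ℕ) : ℕ∞ :=
  ⨆ S : {S : Finset (E d) // (distances S).card ≤ k}, (S.1.card : ℕ∞)

lemma mem_distances {d : ℕ} {S : Finset (E d)} {x y : E d} (hx : x ∈ S) (hy : y ∈ S)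
    (hxy : x ≠ y) : dist x y ∈ distances S :=
  Finset.mem_image.2 ⟨(x, y), Finset.mem_offDiag.2 ⟨hx, hy, hxy⟩, rfl⟩

lemma distances_pos {d : ℕ} {S : Finset (E d)} {r : ℝ} (hr : r ∈ distances S) : 0 < r := by
  obtain ⟨⟨x, y⟩, hxy, rfl⟩ := Finset.mem_image.1 hr
  exact dist_pos.2 (Finset.mem_offDiag.1 hxy).2.2

/-- points of the span of `P` are determined by their distances to `P` -/
lemma eq_of_dist_eq {d : ℕ} {P : Set (E d)} {x y : E d} (hx : x ∈ affineSpan ℝ P)
    (hxy : ∀ p ∈ P, dist p x = dist p y) : x = y := by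
  have h1 : P ⊆ AffineSubspace.perpBisector x y := by
    intro p hp
    exact AffineSubspace.mem_perpBisector_iff_dist_eq.2 (hxy p hp)
  have h2 : affineSpan ℝ P ≤ AffineSubspace.perpBisector x y := affineSpan_le.2 h1
  have h3 := AffineSubspace.mem_perpBisector_iff_dist_eq.1 (h2 hx)
  rw [dist_self] at h3
  exact dist_eq_zero.1 h3.symm

/-- a basis of affinely independent points -/
lemma exists_basis {d : ℕ} (S : Finset (E d)) : ∃ T : Finset (E d), T ⊆ S ∧ T.card ≤ d + 1 ∧
    affineSpan ℝ (T : Set (E d)) = affineSpan ℝ (S : Set (E d)) := by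
  obtain ⟨t, ht, hspan, hind⟩ := exists_affineIndependent ℝ (E d) (S : Set (E d))
  have hfin : t.Finite := S.finite_toSet.subset ht
  lift t to Finset (E d) using hfin
  refine ⟨t, by exact_mod_cast ht, ?_, hspan⟩
  have h1 := hind.card_le_finrank_succ
  have h2 := h1.trans (Nat.succ_le_succ (Submodule.finrank_le _))
  simpa using h2

/-- a set with at most `k` distinct distances has at most `(k+1)^(d+1)` points -/
lemma card_le_of_distances {d k : ℕ} {S : Finset (E d)} (hk : (distances S).card ≤ k) :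
    S.card ≤ (k + 1) ^ (d + 1) := by
  obtain ⟨T, hTS, hTc, hspan⟩ := exists_basis S
  set F : E d → (T → ℝ) := fun z p => dist (p : E d) z with hF
  have h1 : ∀ z ∈ S, F z ∈ Fintype.piFinset (fun _ : T => insert 0 (distances S)) := by
    intro z hz
    rw [Fintype.mem_piFinset]
    intro p
    rw [Finset.mem_insert]
    by_cases hpz : (p : E d) = z
    · left; simp [hF, hpz]
    · right; exact mem_distances (hTS p.2) hz hpz
  have h2 : Set.InjOn F S := by
    intro x hx y _ hxy
    apply eq_of_dist_eq (P := (T : Set (E d)))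
    · rw [hspan]; exact subset_affineSpan ℝ _ hx
    · intro p hp
      exact congrFun hxy ⟨p, hp⟩
  have h3 := Finset.card_le_card_of_injOn F h1 h2
  rw [Fintype.card_piFinset] at h3
  simp only [Finset.prod_const, Finset.card_univ, Fintype.card_coe] at h3
  have h4 : (insert 0 (distances S)).card ≤ k + 1 := (Finset.card_insert_le _ _).trans (by omega)
  calc S.card ≤ (insert 0 (distances S)).card ^ T.card := h3
    _ ≤ (k + 1) ^ T.card := Nat.pow_le_pow_left h4 _
    _ ≤ (k + 1) ^ (d + 1) := Nat.pow_le_pow_right (by omega) hTc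

/-- balls of radius `2 t` split into a bounded number of sets of diameter less than `t` -/
lemma packing (d : ℕ) : ∃ C : ℕ, 0 < C ∧ ∀ t : ℝ, 0 < t → ∀ c : E d, ∃ col : E d → Fin C,
    ∀ x y, dist x c < 2 * t → dist y c < 2 * t → col x = col y → dist x y < t := by
  have hc : IsCompact (Metric.closedBall (0 : E d) 2) := isCompact_closedBall 0 2
  obtain ⟨T, _, hTfin, hT⟩ := hc.finite_cover_balls (e := 1 / 2) (by norm_num)
  lift T to Finset (E d) using hTfin
  have hch : ∀ z : E d, z ∈ Metric.closedBall (0 : E d) 2 → ∃ c : T, dist z c < 1 / 2 := by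
    intro z hz
    have := hT hz
    simp only [Set.mem_iUnion, Metric.mem_ball] at this
    obtain ⟨c, hcT, hcd⟩ := this
    exact ⟨⟨c, hcT⟩, hcd⟩
  obtain ⟨c0, _⟩ := hch 0 (by simp)
  have : Nonempty T := ⟨c0⟩
  choose! u hu using hch
  refine ⟨T.card, Finset.card_pos.2 ⟨c0, c0.2⟩, ?_⟩
  intro t ht c
  refine ⟨fun z => T.equivFin (u (t⁻¹ • (z - c))), ?_⟩
  intro x y hx hy hxy
  have hmem : ∀ z, dist z c < 2 * t → t⁻¹ • (z - c) ∈ Metric.closedBall (0 : E d) 2 := by
    intro z hz
    rw [mem_closedBall_zero_iff, norm_smul, norm_inv, Real.norm_of_nonneg ht.le, ← dist_eq_norm,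
      inv_mul_le_iff₀ ht]
    linarith
  have h1 := hu _ (hmem x hx)
  have h2 := hu _ (hmem y hy)
  have h3 : u (t⁻¹ • (x - c)) = u (t⁻¹ • (y - c)) := T.equivFin.injective hxy
  rw [h3] at h1
  have h4 := dist_triangle_right (t⁻¹ • (x - c)) (t⁻¹ • (y - c)) (u (t⁻¹ • (y - c)) : E d)
  have h5 : dist (t⁻¹ • (x - c)) (t⁻¹ • (y - c)) = t⁻¹ * dist x y := by
    rw [dist_smul₀, norm_inv, Real.norm_of_nonneg ht.le, dist_sub_right]
  rw [h5] at h4
  have h6 : t⁻¹ * dist x y < 1 := by linarith
  rwa [inv_mul_lt_iff₀ ht, mul_one] at h6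

/-- a maximal `t`-separated subset -/
lemma exists_separated {d : ℕ} (S : Finset (E d)) {t : ℝ} (ht : 0 < t) :
    ∃ Z : Finset (E d), Z ⊆ S ∧ (∀ x ∈ Z, ∀ y ∈ Z, x ≠ y → t ≤ dist x y) ∧
      ∀ s ∈ S, ∃ z ∈ Z, dist s z < t := by
  set F := S.powerset.filter (fun Z => ∀ x ∈ Z, ∀ y ∈ Z, x ≠ y → t ≤ dist x y) with hF
  have hne : F.Nonempty := ⟨∅, by simp [hF]⟩
  obtain ⟨Z, hZ, hmax⟩ := Finset.exists_max_image F Finset.card hne
  rw [hF, Finset.mem_filter, Finset.mem_powerset] at hZ
  refine ⟨Z, hZ.1, hZ.2, ?_⟩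
  intro s hs
  by_contra hcon
  push Not at hcon
  have hsZ : s ∉ Z := by
    intro h
    have := hcon s h
    rw [dist_self] at this
    linarith
  have h1 : insert s Z ∈ F := by
    rw [hF, Finset.mem_filter, Finset.mem_powerset]
    refine ⟨Finset.insert_subset hs hZ.1, ?_⟩
    intro x hx y hy hxy
    rw [Finset.mem_insert] at hx hy
    rcases hx with rfl | hx <;> rcases hy with rfl | hy
    · exact absurd rfl hxy
    · exact hcon y hy
    · rw [dist_comm]; exact hcon x hx
    · exact hZ.2 x hx y hy hxy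
  have h2 := hmax _ h1
  rw [Finset.card_insert_of_notMem hsZ] at h2
  omega

/-- the threshold distance of `G(S,k)` -/
lemma exists_threshold {d k : ℕ} (hk : 1 ≤ k) (S : Finset (E d)) : ∃ t : ℝ, 0 < t ∧
    ((distances S).filter fun r => t ≤ r).card ≤ k ∧
    ∀ x y : S, (G S k).Adj x y ↔ (x ≠ y ∧ t ≤ dist (x : E d) y) := by
  set A := (distances S).filter (fun r => ((distances S).filter fun r' => r < r').card < k) with hA
  by_cases hne : A.Nonempty
  · set t := A.min' hne with ht
    have htA : t ∈ A := A.min'_mem hne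
    have htD : t ∈ distances S := (Finset.mem_filter.1 htA).1
    refine ⟨t, distances_pos htD, ?_, ?_⟩
    · have h1 : ((distances S).filter fun r => t ≤ r) =
          insert t ((distances S).filter fun r => t < r) := by
        ext r
        simp only [Finset.mem_filter, Finset.mem_insert]
        constructor
        · rintro ⟨h1, h2⟩
          rcases h2.eq_or_lt with h | h
          · left; exact h.symm
          · right; exact ⟨h1, h⟩
        · rintro (rfl | ⟨h1, h2⟩)
          · exact ⟨htD, le_rfl⟩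
          · exact ⟨h1, h2.le⟩
      rw [h1]
      have h2 := (Finset.mem_filter.1 htA).2
      exact (Finset.card_insert_le _ _).trans (by omega)
    · intro x y
      constructor
      · rintro ⟨h1, h2⟩
        refine ⟨h1, A.min'_le _ ?_⟩
        rw [hA, Finset.mem_filter]
        exact ⟨mem_distances x.2 y.2 (fun h => h1 (Subtype.ext h)), h2⟩
      · rintro ⟨h1, h2⟩
        refine ⟨h1, lt_of_le_of_lt (Finset.card_le_card ?_) (Finset.mem_filter.1 htA).2⟩
        intro r hr
        rw [Finset.mem_filter] at hr ⊢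
        exact ⟨hr.1, lt_of_le_of_lt h2 hr.2⟩
  · -- no distances at all
    have hD : distances S = ∅ := by
      by_contra hD
      have hD' : (distances S).Nonempty := Finset.nonempty_iff_ne_empty.2 hD
      apply hne
      refine ⟨(distances S).max' hD', ?_⟩
      rw [hA, Finset.mem_filter]
      refine ⟨Finset.max'_mem _ _, ?_⟩
      have : ((distances S).filter fun r' => (distances S).max' hD' < r') = ∅ := by
        rw [Finset.filter_eq_empty_iff]
        intro r hr
        exact not_lt.2 (Finset.le_max' _ _ hr)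
      rw [this, Finset.card_empty]
      omega
    refine ⟨1, one_pos, by simp [hD], ?_⟩
    intro x y
    have : ∀ x y : S, x = y := by
      intro x y
      by_contra hxy
      have := mem_distances x.2 y.2 (fun h => hxy (Subtype.ext h))
      rw [hD] at this
      simp at this
    constructor
    · rintro ⟨h1, _⟩; exact absurd (this x y) h1
    · rintro ⟨h1, _⟩; exact absurd (this x y) h1

lemma inner_of_dist {d : ℕ} {x x0 y1 y2 : E d} (h1 : dist x y1 = dist x y2)
    (h2 : dist x0 y1 = dist x0 y2) : inner ℝ (y2 - y1) (x - x0) = 0 := by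
  rw [dist_eq_norm, dist_eq_norm] at h1 h2
  have e1 := norm_sub_sq_real x y1
  have e2 := norm_sub_sq_real x y2
  have e3 := norm_sub_sq_real x0 y1
  have e4 := norm_sub_sq_real x0 y2
  rw [h1] at e1
  rw [h2] at e3
  rw [inner_sub_left, inner_sub_right, inner_sub_right, real_inner_comm x y2,
    real_inner_comm x0 y2, real_inner_comm x y1, real_inner_comm x0 y1]
  linarith

/-- if more than `2 k^(d+3)` points see the points of `X` at only `k` distances, then `X` is
isometric to a subset of a space of codimension two -/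
lemma dim_drop {d k : ℕ} (hk : 1 ≤ k) (X Y : Finset (E (d + 2))) (R : Finset ℝ) (hR : R.card ≤ k)
    (hXY : ∀ x ∈ X, ∀ y ∈ Y, dist x y ∈ R) (hY : k ^ (d + 3) * 2 < Y.card) (hX : X.Nonempty) :
    ∃ φ : E (d + 2) → E d, ∀ x ∈ X, ∀ x' ∈ X, dist (φ x) (φ x') = dist x x' := by
  obtain ⟨T, hTX, hTc, hspan⟩ := exists_basis X
  set F : E (d + 2) → (T → ℝ) := fun z p => dist (p : E (d + 2)) z with hF
  have hmaps : ∀ y ∈ Y, F y ∈ Fintype.piFinset (fun _ : T => R) := by
    intro y hy
    rw [Fintype.mem_piFinset]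
    intro p
    exact hXY _ (hTX p.2) y hy
  have hcard : (Fintype.piFinset (fun _ : T => R)).card * 2 < Y.card := by
    refine lt_of_le_of_lt ?_ hY
    apply Nat.mul_le_mul_right
    rw [Fintype.card_piFinset]
    simp only [Finset.prod_const, Finset.card_univ, Fintype.card_coe]
    exact (Nat.pow_le_pow_left hR _).trans (Nat.pow_le_pow_right hk hTc)
  obtain ⟨v, _, hv⟩ := Finset.exists_lt_card_fiber_of_mul_lt_card_of_maps_to hmaps hcard
  obtain ⟨y1, hy1, y2, hy2, y3, hy3, h12, h13, h23⟩ := Finset.two_lt_card.1 hv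
  rw [Finset.mem_filter] at hy1 hy2 hy3
  have key : ∀ y y' : E (d + 2), F y = F y' → ∀ x ∈ X, dist x y = dist x y' := by
    intro y y' hyy x hx
    have h1 : (T : Set (E (d + 2))) ⊆ AffineSubspace.perpBisector y y' := by
      intro p hp
      exact AffineSubspace.mem_perpBisector_iff_dist_eq.2 (congrFun hyy ⟨p, hp⟩)
    have h2 : affineSpan ℝ (T : Set (E (d + 2))) ≤ AffineSubspace.perpBisector y y' :=
      affineSpan_le.2 h1
    rw [hspan] at h2
    exact AffineSubspace.mem_perpBisector_iff_dist_eq.1 (h2 (subset_affineSpan ℝ _ hx))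
  have k12 := key y1 y2 (hy1.2.trans hy2.2.symm)
  have k13 := key y1 y3 (hy1.2.trans hy3.2.symm)
  obtain ⟨x0, hx0⟩ := hX
  set u := y2 - y1 with hu
  set w := y3 - y1 with hw
  have hlin : LinearIndependent ℝ ![u, w] := by
    rw [LinearIndependent.pair_iff]
    intro s t hst
    set a := x0 - y1 with ha
    have hau : 2 * inner ℝ a u = ‖u‖ ^ 2 := by
      have e1 : ‖a‖ = ‖a - u‖ := by
        have := k12 x0 hx0
        rw [dist_eq_norm, dist_eq_norm] at this
        have e : a - u = x0 - y2 := by rw [ha, hu]; abel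
        rw [e, ha]; exact this
      have e2 := norm_sub_sq_real a u
      rw [← e1] at e2
      linarith
    have haw : 2 * inner ℝ a w = ‖w‖ ^ 2 := by
      have e1 : ‖a‖ = ‖a - w‖ := by
        have := k13 x0 hx0
        rw [dist_eq_norm, dist_eq_norm] at this
        have e : a - w = x0 - y3 := by rw [ha, hw]; abel
        rw [e, ha]; exact this
      have e2 := norm_sub_sq_real a w
      rw [← e1] at e2
      linarith
    have hu0 : 0 < ‖u‖ ^ 2 := by
      have : u ≠ 0 := fun h => h12 (sub_eq_zero.1 h).symm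
      positivity
    have hw0 : 0 < ‖w‖ ^ 2 := by
      have : w ≠ 0 := fun h => h13 (sub_eq_zero.1 h).symm
      positivity
    have e1 : s * ‖u‖ ^ 2 + t * ‖w‖ ^ 2 = 0 := by
      have : inner ℝ a (s • u + t • w) = (0 : ℝ) := by rw [hst, inner_zero_right]
      rw [inner_add_right, inner_smul_right, inner_smul_right] at this
      rw [← hau, ← haw]
      linarith
    have e2 : s ^ 2 * ‖u‖ ^ 2 = t ^ 2 * ‖w‖ ^ 2 := by
      have h1 : s • u = -(t • w) := eq_neg_of_add_eq_zero_left hst
      have h2 : ‖s • u‖ ^ 2 = ‖t • w‖ ^ 2 := by rw [h1, norm_neg]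
      rw [norm_smul, norm_smul, mul_pow, mul_pow, Real.norm_eq_abs, Real.norm_eq_abs, sq_abs,
        sq_abs] at h2
      exact h2
    have e3 : t * (t + s) * ‖w‖ ^ 2 = 0 := by linear_combination s * e1 - e2
    have e4 : t * (t + s) = 0 := by
      rcases mul_eq_zero.1 e3 with h | h
      · exact h
      · linarith
    rcases mul_eq_zero.1 e4 with h | h
    · rw [h] at e1
      constructor
      · have : s * ‖u‖ ^ 2 = 0 := by linarith
        rcases mul_eq_zero.1 this with h | h
        · exact h
        · linarith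
      · exact h
    · have h5 : t = -s := by linarith
      rw [h5] at hst
      have h6 : s • (u - w) = 0 := by
        rw [smul_sub, ← hst]
        simp [sub_eq_add_neg]
      rcases smul_eq_zero.1 h6 with h | h
      · exact ⟨h, by rw [h5, h, neg_zero]⟩
      · exfalso
        apply h23
        have : y2 - y3 = 0 := by rw [← h, hu, hw]; abel
        exact sub_eq_zero.1 this
  set W := Submodule.span ℝ (Set.range ![u, w]) with hW
  have hfW : Module.finrank ℝ W = 2 := by
    rw [hW, finrank_span_eq_card hlin]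
    simp
  have hfin : Module.finrank ℝ Wᗮ = d := by
    have := Submodule.finrank_add_finrank_orthogonal W
    rw [hfW, finrank_euclideanSpace_fin] at this
    omega
  set iso : Wᗮ ≃ₗᵢ[ℝ] E d := ((stdOrthonormalBasis ℝ Wᗮ).reindex (finCongr hfin)).repr with hiso
  have hmem : ∀ x ∈ X, x - x0 ∈ Wᗮ := by
    intro x hx
    rw [Submodule.mem_orthogonal]
    intro b hb
    rw [hW] at hb
    induction hb using Submodule.span_induction with
    | mem b hb =>
      obtain ⟨i, rfl⟩ := hb
      fin_cases i
      · exact inner_of_dist (k12 x hx) (k12 x0 hx0)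
      · exact inner_of_dist (k13 x hx) (k13 x0 hx0)
    | zero => exact inner_zero_left _
    | add b c _ _ h1 h2 => rw [inner_add_left, h1, h2, add_zero]
    | smul c b _ h1 => rw [inner_smul_left, h1, mul_zero]
  refine ⟨fun z => if hz : z - x0 ∈ Wᗮ then iso ⟨z - x0, hz⟩ else 0, ?_⟩
  intro x hx x' hx'
  simp only [dif_pos (hmem x hx), dif_pos (hmem x' hx')]
  rw [LinearIsometryEquiv.dist_map, Subtype.dist_eq]
  simp

/-- the upper bound -/
lemma upper (d : ℕ) : ∃ C : ℕ, ∀ k : ℕ, 1 ≤ k → f (d + 2) k ≤ h d k + C := by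
  obtain ⟨C, _, hC⟩ := packing (d + 2)
  refine ⟨C, ?_⟩
  intro k hk
  by_cases htop : h d k = ⊤
  · rw [htop]; simp
  obtain ⟨q, hq⟩ := ENat.ne_top_iff_exists.1 htop
  refine (iInf_le _ ((k + 1) ^ (d + 3) * (k ^ (d + 3) * 2) + 1)).trans ?_
  apply iSup_le
  rintro ⟨S, hS, _⟩
  rw [← hq]
  have hgoal : (G S k).Colorable (q + C) := by
    obtain ⟨t, ht, htk, hadj⟩ := exists_threshold hk S
    obtain ⟨Z, hZS, hZsep, hZmax⟩ := exists_separated S ht
    have hZdist : (distances Z).card ≤ k := by
      refine le_trans (Finset.card_le_card ?_) htk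
      intro r hr
      obtain ⟨⟨x, y⟩, hxy, rfl⟩ := Finset.mem_image.1 hr
      rw [Finset.mem_offDiag] at hxy
      rw [Finset.mem_filter]
      exact ⟨mem_distances (hZS hxy.1) (hZS hxy.2.1) hxy.2.2, hZsep _ hxy.1 _ hxy.2.1 hxy.2.2⟩
    have hZc : Z.card ≤ (k + 1) ^ (d + 3) := card_le_of_distances hZdist
    choose! ζ hζZ hζd using hZmax
    obtain ⟨z, hz, hzc⟩ := Finset.exists_lt_card_fiber_of_mul_lt_card_of_maps_to
      (s := S) (t := Z) (f := ζ) (n := k ^ (d + 3) * 2) hζZ
      (lt_of_le_of_lt (Nat.mul_le_mul_right _ hZc) (by omega))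
    set Y := S.filter (fun x => ζ x = z) with hY
    have hYd : ∀ y ∈ Y, dist y z < t := by
      intro y hy
      rw [hY, Finset.mem_filter] at hy
      rw [← hy.2]
      exact hζd y hy.1
    have hYS : ∀ y ∈ Y, y ∈ S := fun y hy => (Finset.mem_filter.1 hy).1
    set X := S.filter (fun x => ∀ y ∈ Y, t ≤ dist x y) with hX
    have hXS : ∀ x ∈ X, x ∈ S := fun x hx => (Finset.mem_filter.1 hx).1
    obtain ⟨c1, hc1⟩ : ∃ c1 : X → Fin q, ∀ x y : X, (G S k).Adj ⟨x, hXS x x.2⟩ ⟨y, hXS y y.2⟩ →
        c1 x ≠ c1 y := by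
      by_cases hXne : X.Nonempty
      · obtain ⟨φ, hφ⟩ := dim_drop hk X Y ((distances S).filter fun r => t ≤ r) htk (by
          intro x hx y hy
          have h1 := (Finset.mem_filter.1 hx).2 y hy
          rw [Finset.mem_filter]
          refine ⟨mem_distances (hXS x hx) (hYS y hy) ?_, h1⟩
          rintro rfl
          rw [dist_self] at h1
          linarith) hzc hXne
        set X' := X.image φ with hX'
        have hsub : distances X' ⊆ distances S := by
          intro r hr
          obtain ⟨⟨a, b⟩, hab, rfl⟩ := Finset.mem_image.1 hr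
          rw [Finset.mem_offDiag] at hab
          obtain ⟨ha, hb, hne⟩ := hab
          obtain ⟨x, hx, rfl⟩ := Finset.mem_image.1 ha
          obtain ⟨y, hy, rfl⟩ := Finset.mem_image.1 hb
          simp only
          rw [hφ x hx y hy]
          exact mem_distances (hXS x hx) (hXS y hy) (fun h => hne (by rw [h]))
        have hcol : (G X' k).Colorable q := by
          rw [← SimpleGraph.chromaticNumber_le_iff_colorable, hq]
          exact le_iSup (fun S : Finset (E d) => (G S k).chromaticNumber) X'
        obtain ⟨c⟩ := hcol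
        refine ⟨fun x => c ⟨φ x, Finset.mem_image_of_mem _ x.2⟩, ?_⟩
        intro x y hxy
        apply c.valid
        obtain ⟨hne, hlt⟩ := hxy
        have hne' : (x : E (d + 2)) ≠ y := fun h => hne (Subtype.ext h)
        refine ⟨?_, ?_⟩
        · intro h
          have h1 : φ x = φ y := congrArg Subtype.val h
          have h2 := hφ x x.2 y y.2
          rw [h1, dist_self] at h2
          exact hne' (dist_eq_zero.1 h2.symm)
        · refine lt_of_le_of_lt (Finset.card_le_card ?_) hlt
          intro r hr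
          rw [Finset.mem_filter] at hr ⊢
          refine ⟨hsub hr.1, ?_⟩
          have := hr.2
          simp only at this ⊢
          rwa [hφ x x.2 y y.2] at this
      · rw [Finset.not_nonempty_iff_eq_empty] at hXne
        have hno : ∀ x : X, False := fun x => Finset.eq_empty_iff_forall_notMem.1 hXne x x.2
        exact ⟨fun x => (hno x).elim, fun x => (hno x).elim⟩
    obtain ⟨col, hcol⟩ := hC t ht z
    have hnear : ∀ s : S, (s : E (d + 2)) ∉ X → dist (s : E (d + 2)) z < 2 * t := by
      intro s hs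
      rw [hX, Finset.mem_filter] at hs
      push Not at hs
      obtain ⟨y, hy, hlt⟩ := hs s.2
      have h1 := dist_triangle (s : E (d + 2)) y z
      have h2 := hYd y hy
      linarith
    set cc : S → Fin q ⊕ Fin C := fun s =>
      if hs : (s : E (d + 2)) ∈ X then Sum.inl (c1 ⟨s, hs⟩) else Sum.inr (col s) with hcc
    have hvalid : ∀ {v w : S}, (G S k).Adj v w → cc v ≠ cc w := by
      intro v w hvw heq
      by_cases hv : (v : E (d + 2)) ∈ X
      · by_cases hw : (w : E (d + 2)) ∈ X
        · simp only [hcc, dif_pos hv, dif_pos hw] at heq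
          exact hc1 ⟨v, hv⟩ ⟨w, hw⟩ hvw (Sum.inl_injective heq)
        · simp only [hcc, dif_pos hv, dif_neg hw] at heq
          exact absurd heq (by simp)
      · by_cases hw : (w : E (d + 2)) ∈ X
        · simp only [hcc, dif_neg hv, dif_pos hw] at heq
          exact absurd heq (by simp)
        · simp only [hcc, dif_neg hv, dif_neg hw] at heq
          have h1 := hcol v w (hnear v hv) (hnear w hw) (Sum.inr_injective heq)
          have h2 := ((hadj v w).1 hvw).2
          linarith
    have := (SimpleGraph.Coloring.mk cc hvalid).colorable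
    simpa using this
  have := hgoal.chromaticNumber_le
  exact_mod_cast this

/-- first coordinate of the rational point with parameter `t` on the unit circle -/
noncomputable def cc (t : ℕ) : ℝ := (1 - (t : ℝ) ^ 2) / (1 + (t : ℝ) ^ 2)

/-- second coordinate of the rational point with parameter `t` on the unit circle -/
noncomputable def ss (t : ℕ) : ℝ := (2 * (t : ℝ)) / (1 + (t : ℝ) ^ 2)

lemma cs_sq (t : ℕ) : cc t ^ 2 + ss t ^ 2 = 1 := by
  unfold cc ss
  have h : (1 + (t : ℝ) ^ 2) ≠ 0 := by positivity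
  field_simp
  ring

lemma cs_inj {a b : ℕ} (h1 : cc a = cc b) (h2 : ss a = ss b) : a = b := by
  unfold cc ss at *
  have ha : (1 + (a : ℝ) ^ 2) ≠ 0 := by positivity
  have hb : (1 + (b : ℝ) ^ 2) ≠ 0 := by positivity
  have hc : (a : ℝ) ^ 2 = (b : ℝ) ^ 2 := by
    rw [div_eq_div_iff ha hb] at h1
    nlinarith
  rw [hc] at h2
  have : 2 * (a : ℝ) = 2 * (b : ℝ) := by
    have := congrArg (fun z => z * (1 + (b : ℝ) ^ 2)) h2
    simpa [div_mul_cancel₀ _ hb] using this
  exact_mod_cast (by linarith : (a : ℝ) = b)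

/-- the point with first coordinates `x` and last two coordinates `a, b` -/
noncomputable def J {d : ℕ} (x : E d) (a b : ℝ) : E (d + 2) :=
  WithLp.toLp 2 (Fin.append (WithLp.ofLp x) ![a, b])

lemma dist_J {d : ℕ} (x y : E d) (a b a' b' : ℝ) :
    dist (J x a b) (J y a' b') = Real.sqrt (dist x y ^ 2 + (a - a') ^ 2 + (b - b') ^ 2) := by
  rw [EuclideanSpace.dist_eq, EuclideanSpace.dist_eq, Real.sq_sqrt (by positivity)]
  congr 1
  rw [Fin.sum_univ_add]
  simp only [J, Fin.append_left, Fin.append_right, Fin.sum_univ_two, Real.dist_eq, sq_abs]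
  simp
  ring

/-- the lower bound -/
lemma lower (d k : ℕ) (hk : 1 ≤ k) : h d k ≤ f (d + 2) (2 * k) := by
  apply iSup_le
  intro X
  apply le_iInf
  intro n
  by_cases hXne : X.Nonempty
  swap
  · rw [Finset.not_nonempty_iff_eq_empty] at hXne
    subst hXne
    have : (G (∅ : Finset (E d)) k).Colorable 0 :=
      ⟨SimpleGraph.Coloring.mk (fun x => (Finset.notMem_empty _ x.2).elim)
        (fun {x} => (Finset.notMem_empty _ x.2).elim)⟩
    have h1 := this.chromaticNumber_le
    exact h1.trans (by simp)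
  obtain ⟨p, hp⟩ := hXne
  obtain ⟨t, ht, htk, hadj⟩ := exists_threshold hk X
  -- choice of the radius
  obtain ⟨r, hr0, hr1, hr2⟩ : ∃ r : ℝ, 0 < r ∧ 2 * r < t ∧ ∀ x ∈ X, dist x p < t →
      dist x p ^ 2 + r ^ 2 < t ^ 2 := by
    have h1 : ∀ᶠ r : ℝ in nhdsWithin 0 (Set.Ioi 0), 2 * r < t := by
      have : Filter.Tendsto (fun r : ℝ => 2 * r) (nhdsWithin 0 (Set.Ioi 0)) (nhds (2 * 0)) :=
        ((continuous_const.mul continuous_id).tendsto 0).mono_left nhdsWithin_le_nhds
      rw [mul_zero] at this
      exact this.eventually (gt_mem_nhds ht)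
    have h2 : ∀ᶠ r : ℝ in nhdsWithin 0 (Set.Ioi 0), ∀ x ∈ X, dist x p < t →
        dist x p ^ 2 + r ^ 2 < t ^ 2 := by
      rw [Filter.eventually_all_finset]
      intro x hx
      by_cases hxt : dist x p < t
      · have : Filter.Tendsto (fun r : ℝ => dist x p ^ 2 + r ^ 2) (nhdsWithin 0 (Set.Ioi 0))
            (nhds (dist x p ^ 2 + 0 ^ 2)) :=
          ((continuous_const.add (continuous_id.pow 2)).tendsto 0).mono_left nhdsWithin_le_nhds
        have h3 : dist x p ^ 2 + 0 ^ 2 < t ^ 2 := by
          have : (0 : ℝ) ≤ dist x p := dist_nonneg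
          nlinarith
        filter_upwards [this.eventually (gt_mem_nhds h3)] with r hr _
        exact hr
      · exact Filter.Eventually.of_forall (fun r h => absurd h hxt)
    obtain ⟨r, hr, hr'⟩ := ((h1.and h2).and self_mem_nhdsWithin).exists
    exact ⟨r, hr', hr.1, hr.2⟩
  set N := max n ((2 * k) ^ (d + 3) + 1) with hN
  set A := X.image (fun x => J x 0 0) with hA
  set B := (Finset.range N).image (fun i => J p (r * cc i) (r * ss i)) with hB
  set S := A ∪ B with hS
  have hBc : B.card = N := by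
    rw [hB, Finset.card_image_of_injOn, Finset.card_range]
    intro i _ j _ hij
    have h1 : dist (J p (r * cc i) (r * ss i)) (J p (r * cc j) (r * ss j)) = 0 := by
      simp only at hij
      rw [hij, dist_self]
    rw [dist_J, dist_self] at h1
    have h2 : (0 : ℝ) ^ 2 + (r * cc i - r * cc j) ^ 2 + (r * ss i - r * ss j) ^ 2 = 0 := by
      have h3 : (0 : ℝ) ≤ 0 ^ 2 + (r * cc i - r * cc j) ^ 2 + (r * ss i - r * ss j) ^ 2 := by
        positivity
      exact (Real.sqrt_eq_zero h3).1 h1
    have h4 : r * cc i - r * cc j = 0 := by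
      nlinarith [sq_nonneg (r * cc i - r * cc j), sq_nonneg (r * ss i - r * ss j)]
    have h5 : r * ss i - r * ss j = 0 := by
      nlinarith [sq_nonneg (r * cc i - r * cc j), sq_nonneg (r * ss i - r * ss j)]
    apply cs_inj
    · exact mul_left_cancel₀ hr0.ne' (by linarith)
    · exact mul_left_cancel₀ hr0.ne' (by linarith)
  have hSc : N ≤ S.card := by
    rw [← hBc]; exact Finset.card_le_card Finset.subset_union_right
  have hS1 : n ≤ S.card := (le_max_left _ _).trans hSc
  have hS2 : 2 * k ≤ (distances S).card := by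
    by_contra hcon
    push Not at hcon
    have h1 : (distances S).card ≤ 2 * k - 1 := by omega
    have h2 := card_le_of_distances h1
    have h3 : 2 * k - 1 + 1 = 2 * k := by omega
    rw [h3] at h2
    have h4 : (2 * k) ^ (d + 3) + 1 ≤ S.card := (le_max_right _ _).trans hSc
    have h5 : d + 2 + 1 = d + 3 := rfl
    rw [h5] at h2
    omega
  -- the large distances of `S`
  set D := (distances X).filter (fun r => t ≤ r) with hD
  have hlarge : ((distances S).filter fun ρ => t ≤ ρ) ⊆
      D ∪ D.image (fun ρ => Real.sqrt (ρ ^ 2 + r ^ 2)) := by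
    have hAB : ∀ x ∈ X, ∀ i : ℕ, t ≤ dist (J x 0 0) (J p (r * cc i) (r * ss i)) →
        dist (J x 0 0) (J p (r * cc i) (r * ss i)) ∈
          D.image (fun ρ => Real.sqrt (ρ ^ 2 + r ^ 2)) := by
      intro x hx i hle
      have e1 : dist (J x 0 0) (J p (r * cc i) (r * ss i)) =
          Real.sqrt (dist x p ^ 2 + r ^ 2) := by
        rw [dist_J]
        congr 1
        have := cs_sq i
        linear_combination r ^ 2 * this
      rw [e1] at hle ⊢
      have hxt : t ≤ dist x p := by
        by_contra hcon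
        push Not at hcon
        have h1 := hr2 x hx hcon
        have h2 : Real.sqrt (dist x p ^ 2 + r ^ 2) < t := by
          rw [Real.sqrt_lt' ht]; exact h1
        linarith
      refine Finset.mem_image.2 ⟨dist x p, ?_, rfl⟩
      rw [hD, Finset.mem_filter]
      refine ⟨mem_distances hx hp ?_, hxt⟩
      rintro rfl
      rw [dist_self] at hxt
      linarith
    intro ρ hρ
    rw [Finset.mem_filter] at hρ
    obtain ⟨hρ1, hρt⟩ := hρ
    obtain ⟨⟨a, b⟩, hab, rfl⟩ := Finset.mem_image.1 hρ1
    rw [Finset.mem_offDiag] at hab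
    obtain ⟨ha, hb, hne⟩ := hab
    simp only at ha hb hne hρt ⊢
    rw [hS, Finset.mem_union] at ha hb
    rw [Finset.mem_union]
    rcases ha with ha | ha <;> rcases hb with hb | hb
    · left
      obtain ⟨x, hx, rfl⟩ := Finset.mem_image.1 ha
      obtain ⟨y, hy, rfl⟩ := Finset.mem_image.1 hb
      have e1 : dist (J x 0 0) (J y 0 0) = dist x y := by
        rw [dist_J]
        simp
      rw [e1] at hρt ⊢
      rw [hD, Finset.mem_filter]
      exact ⟨mem_distances hx hy (fun h => hne (by rw [h])), hρt⟩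
    · right
      obtain ⟨x, hx, rfl⟩ := Finset.mem_image.1 ha
      obtain ⟨i, _, rfl⟩ := Finset.mem_image.1 hb
      exact hAB x hx i hρt
    · right
      obtain ⟨i, _, rfl⟩ := Finset.mem_image.1 ha
      obtain ⟨x, hx, rfl⟩ := Finset.mem_image.1 hb
      rw [dist_comm] at hρt ⊢
      exact hAB x hx i hρt
    · exfalso
      obtain ⟨i, _, rfl⟩ := Finset.mem_image.1 ha
      obtain ⟨j, _, rfl⟩ := Finset.mem_image.1 hb
      rw [dist_J, dist_self] at hρt
      have h1 : Real.sqrt (0 ^ 2 + (r * cc i - r * cc j) ^ 2 + (r * ss i - r * ss j) ^ 2)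
          ≤ 2 * r := by
        apply Real.sqrt_le_iff.2
        refine ⟨by linarith, ?_⟩
        have h3 := cs_sq i
        have h4 := cs_sq j
        have h5 : (cc i + cc j) ^ 2 + (ss i + ss j) ^ 2 ≥ 0 := by positivity
        have h6 : (cc i - cc j) ^ 2 + (ss i - ss j) ^ 2 ≤ 4 := by nlinarith
        have h7 : 0 ≤ r ^ 2 := by positivity
        nlinarith
      linarith
  have hlargec : ((distances S).filter fun ρ => t ≤ ρ).card ≤ 2 * k := by
    refine (Finset.card_le_card hlarge).trans ((Finset.card_union_le _ _).trans ?_)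
    have := (Finset.card_image_le (s := D) (f := fun ρ => Real.sqrt (ρ ^ 2 + r ^ 2)))
    omega
  -- the embedding
  have hmemS : ∀ x : X, J (x : E d) 0 0 ∈ S := by
    intro x
    rw [hS, Finset.mem_union]
    left
    exact Finset.mem_image.2 ⟨x, x.2, rfl⟩
  have hdJ : ∀ x y : E d, dist (J x 0 0) (J y 0 0) = dist x y := by
    intro x y
    rw [dist_J]
    simp
  let φ : G X k →g G S (2 * k) :=
    { toFun := fun x => ⟨J (x : E d) 0 0, hmemS x⟩
      map_rel' := by
        intro x y hxy
        obtain ⟨hne, hle⟩ := (hadj x y).1 hxy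
        have hne' : (x : E d) ≠ y := fun h => hne (Subtype.ext h)
        have hneJ : J (x : E d) 0 0 ≠ J (y : E d) 0 0 := by
          intro h
          have := hdJ x y
          rw [h, dist_self] at this
          exact hne' (dist_eq_zero.1 this.symm)
        refine ⟨fun h => hneJ (congrArg Subtype.val h), ?_⟩
        refine lt_of_lt_of_le (Finset.card_lt_card ?_) hlargec
        rw [Finset.ssubset_iff_of_subset]
        · refine ⟨dist (J (x : E d) 0 0) (J (y : E d) 0 0), ?_, ?_⟩
          · rw [Finset.mem_filter]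
            refine ⟨mem_distances (hmemS x) (hmemS y) hneJ, ?_⟩
            rw [hdJ]; exact hle
          · simp
        · intro ρ hρ
          rw [Finset.mem_filter] at hρ ⊢
          refine ⟨hρ.1, ?_⟩
          have h1 := hρ.2
          simp only at h1
          rw [hdJ] at h1
          linarith }
  refine (SimpleGraph.chromaticNumber_mono_of_hom φ).trans ?_
  exact le_iSup (fun S : {S : Finset (E (d + 2)) // n ≤ S.card ∧ 2 * k ≤ (distances S).card} =>
    (G S.1 (2 * k)).chromaticNumber) ⟨S, hS1, hS2⟩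

lemma g_le_h (d k : ℕ) : g d k ≤ h d k := by
  apply iSup_le
  rintro ⟨S, hS⟩
  have htop : G S k = ⊤ := by
    ext x y
    rw [SimpleGraph.top_adj]
    constructor
    · exact fun h => h.1
    · intro hne
      refine ⟨hne, lt_of_lt_of_le (Finset.card_lt_card ?_) hS⟩
      rw [Finset.filter_ssubset]
      exact ⟨dist (x : E d) y, mem_distances x.2 y.2 (fun h => hne (Subtype.ext h)), lt_irrefl _⟩
  have h1 : (G S k).chromaticNumber = (S.card : ℕ∞) := by
    rw [htop, SimpleGraph.chromaticNumber_top]
    simp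
  rw [← h1]
  exact le_iSup (fun S : Finset (E d) => (G S k).chromaticNumber) S

lemma g_le (d k : ℕ) : g d k ≤ (((k + 1) ^ (d + 1) : ℕ) : ℕ∞) := by
  apply iSup_le
  rintro ⟨S, hS⟩
  exact_mod_cast card_le_of_distances hS

lemma h_le_g (d : ℕ) : ∃ C : ℕ, ∀ k : ℕ, 1 ≤ k → h d k ≤ C * g d k := by
  obtain ⟨C, _, hC⟩ := packing d
  refine ⟨C, ?_⟩
  intro k hk
  apply iSup_le
  intro S
  obtain ⟨t, ht, htk, hadj⟩ := exists_threshold hk S
  obtain ⟨Z, hZS, hZsep, hZmax⟩ := exists_separated S ht
  have hZdist : (distances Z).card ≤ k := by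
    refine le_trans (Finset.card_le_card ?_) htk
    intro r hr
    obtain ⟨⟨x, y⟩, hxy, rfl⟩ := Finset.mem_image.1 hr
    rw [Finset.mem_offDiag] at hxy
    rw [Finset.mem_filter]
    exact ⟨mem_distances (hZS hxy.1) (hZS hxy.2.1) hxy.2.2, hZsep _ hxy.1 _ hxy.2.1 hxy.2.2⟩
  have hZg : (Z.card : ℕ∞) ≤ g d k :=
    le_iSup (fun S : {S : Finset (E d) // (distances S).card ≤ k} => (S.1.card : ℕ∞)) ⟨Z, hZdist⟩
  choose! ζ hζZ hζd using hZmax
  choose col hcol using hC t ht
  set cc : S → Fin C × Z := fun s => (col (ζ s) s, ⟨ζ s, hζZ s s.2⟩) with hcc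
  have hvalid : ∀ {v w : S}, (G S k).Adj v w → cc v ≠ cc w := by
    intro v w hvw heq
    simp only [hcc, Prod.mk.injEq, Subtype.mk.injEq] at heq
    obtain ⟨h1, h2⟩ := heq
    rw [h2] at h1
    have h3 := hζd v v.2
    rw [h2] at h3
    have h4 := hζd w w.2
    have h5 := hcol (ζ w) v w (by linarith) (by linarith) h1
    have h6 := ((hadj v w).1 hvw).2
    linarith
  have h1 := (SimpleGraph.Coloring.mk cc hvalid).colorable.chromaticNumber_le
  simp only [Fintype.card_prod, Fintype.card_fin, Fintype.card_coe, Nat.cast_mul] at h1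
  exact h1.trans (mul_le_mul_right hZg _)

/-- Main theorem. -/
theorem result (d : ℕ) : ∃ C : ℕ, ∀ k : ℕ, 1 ≤ k →
    g d k ≤ f (d + 2) (2 * k) ∧ f (d + 2) k ≤ C * g d k ∧
      h d k ≤ f (d + 2) (2 * k) ∧ f (d + 2) k ≤ h d k + C ∧
        g d k ≤ (((k + 1) ^ (d + 1) : ℕ) : ℕ∞) := by
  obtain ⟨C1, hC1⟩ := upper d
  obtain ⟨C2, hC2⟩ := h_le_g d
  refine ⟨C1 + C2, ?_⟩
  intro k hk
  have hg1 : (1 : ℕ∞) ≤ g d k := by
    have h0 : (distances ({0} : Finset (E d))).card ≤ k := by simp [distances]
    have := le_iSup (fun S : {S : Finset (E d) // (distances S).card ≤ k} =>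
      (S.1.card : ℕ∞)) ⟨{0}, h0⟩
    simpa [g] using this
  refine ⟨(g_le_h d k).trans (lower d k hk), ?_, lower d k hk, ?_, g_le d k⟩
  · calc f (d + 2) k ≤ h d k + C1 := hC1 k hk
      _ ≤ C2 * g d k + C1 * g d k := by
        apply add_le_add (hC2 k hk)
        calc (C1 : ℕ∞) = C1 * 1 := (mul_one _).symm
          _ ≤ C1 * g d k := mul_le_mul_right hg1 _
      _ = ((C1 + C2 : ℕ) : ℕ∞) * g d k := by push_cast; ring
  · refine (hC1 k hk).trans ?_
    push_cast
    gcongr
    exact le_self_add

end Pool.Agent.Results.MP_bdaba8_co.Reduction
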